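import Pool.Agent.TorusInt.Final

/-!
# MP_238ae6_gt: an integrable geodesic flow on the two-torus which is not of Liouville type

There is a `C^∞` Riemannian metric on the two-torus which is not of Liouville type, although its
geodesic flow is integrable: it has a first integral `F`, smooth off the zero section, such that an
open dense subset of `T*T²` is the union of regular compact common levels of `F` and of the
Hamiltonian `H` (so that this open dense set is foliated by invariant Lagrangian tori). Moreover a
nonempty open subset of `T*T²` is foliated by invariant Lagrangian graphs.

The example. In the plane of the Kepler problem the Jacobi metric `(2/|z| - 1)|dz|²` is rotationally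
symmetric and has Liouville form in the elliptic coordinates `z = (1 + cosh ζ)/10`. The metric is
changed inside a thin annulus around the circular closed geodesic `|z| = 1` by a rotationally
symmetric isochronous deformation. The elliptic first integral extends over the annulus, but the new
metric is not separable. Outside the annulus the Liouville metric is continued to a torus.

The definitions `IsLattice`, `IsMetric`, `Isometric`, `LiouvilleType`, `Ham`, `pb`,
`GloballyIntegrable`, `IsTrajectory`, `InvariantLagrangianGraph`, `GraphFoliated` are in
`Pool.Agent.TorusInt.Statement`.
-/

namespace Pool.Agent.Results.MP_238ae6_gt.IntegrableNotLiouville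

open TorusInt

/-- There is a smooth Riemannian metric on a two-torus whose geodesic flow is integrable, with an
open dense subset of the cotangent bundle foliated by compact regular common levels of the
Hamiltonian and a first integral, such that a nonempty open subset of the cotangent bundle is
foliated by invariant Lagrangian graphs, and which is not of Liouville type. -/
theorem result : ∃ (Λ : AddSubgroup (ℝ × ℝ)) (f : ℝ × ℝ → ℝ), IsLattice Λ ∧ IsMetric Λ f ∧
    GloballyIntegrable Λ f ∧ GraphFoliated Λ f ∧ ¬ LiouvilleType Λ f := by
  obtain ⟨f, h⟩ := exists_example
  exact ⟨Λ₀, f, isLattice_Λ₀, h⟩

end Pool.Agent.Results.MP_238ae6_gt.IntegrableNotLiouville
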